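import Pool.Agent.Lib.H26FDD.Main

open MeasureTheory Filter Topology
open scoped ENNReal

namespace Pool.Agent.Results.MP_5d9214_an.UnconditionalFDD

open Pool.Agent.H26

/-- For every `1 < p < ∞` there are a function `f` in `L_p(ℝ)` (real or complex scalars), a
sequence of pairwise different, linearly independent translates `f_i = T_{λ_i} f` and integers
`0 = n_0 < n_1 < n_2 < ⋯` such that the spans of the blocks `f_i`, `n_k ≤ i < n_{k+1}`, form an
unconditional finite-dimensional decomposition of `L_p(ℝ)`. -/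
theorem result
    (𝕜 : Type*) [RCLike 𝕜] (p : ℝ≥0∞) [Fact (1 ≤ p)] (hp1 : 1 < p) (hp : p ≠ ∞) :
    ∃ (f : Lp 𝕜 p (volume : Measure ℝ)) (lam : ℕ → ℝ) (n : ℕ → ℕ), n 0 = 0 ∧ StrictMono n ∧
      Function.Injective lam ∧ LinearIndependent 𝕜 (fun i => translate 𝕜 p (lam i) f) ∧
      IsUnconditionalFDD (fun k => Submodule.span 𝕜
        {g : Lp 𝕜 p (volume : Measure ℝ) |
          ∃ i, n k ≤ i ∧ i < n (k + 1) ∧ g = translate 𝕜 p (lam i) f}) :=
  Pool.Agent.H26FDD.main_indep 𝕜 p hp1 hp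

end Pool.Agent.Results.MP_5d9214_an.UnconditionalFDD
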